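import Pool.Agent.W674.LVR.Ex2

/-!
# Lipschitz-volume rigidity fails for a Lipschitz torus in `ℝ⁸` with its intrinsic metric

The torus `Y ⊂ ℝ⁸` is parametrised by
`Φ(x, y) = (e^{2πix}, e^{2πiy}, Σ_{k even} 2⁻ᵏ b(2ᵏ s(y)) e^{2πi 2ᵏ x}, Σ_{k odd} …) ∈ ℂ⁴`,
`s(y) = |sin πy|`, `b` a tent function supported on `[1/2, 2]`. Off the circle `y = 0` the helices
make all sufficiently small chords satisfy `|Φ(p) - Φ(q)| ≥ 1.1 |F(Φ p) - F(Φ q)|`, where `F` is the
second coordinate, while on the circle `y = 0` the torus contains a round circle, on which nearby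
points have intrinsic distance smaller than `1.1 |F - F|`. The space `X` is the torus with the
distance `max (d_Y, 1.1 |F - F|)`: it agrees locally with `d_Y` off a null circle, so the masses
agree, but the identity `X → Y` is not an isometry.
-/

set_option autoImplicit false

namespace Pool.Agent.Results.MP_f51a17_gt.NotRigid

open Pool.Agent.W674.LVR

/-- **Negative answer to Q1.** There is a compact connected oriented 2-dimensional Lipschitz manifold
`Y` without boundary in `ℝ⁸` (with its intrinsic metric, `M` is this structure), with fundamental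
current `TY = [Y]` (an integral current), and a 2-dimensional integral current space `(X, TX)` (`X`
complete) with a 1-Lipschitz map `f : X → Y` (bijective, with Lipschitz inverse) such that
`f_# TX = TY`, `M(∂TX) ≤ M(∂TY)`, `M(TX) ≤ M(TY)` and `f` is not an isometry. -/
theorem result : ∃ (Y : Type) (_ : MetricSpace Y) (_ : MeasurableSpace Y) (_ : BorelSpace Y)
    (M : ClosedLipschitzSubmanifold 2 8 Y) (TY : Fnl 2 Y),
    IsFundamental M TY ∧ IsIntegral TY ∧
    ∃ (X : Type) (_ : MetricSpace X) (_ : MeasurableSpace X) (_ : BorelSpace X) (TX : Fnl 2 X)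
      (f : X → Y), IsIntegralCurrentSpace X TX ∧ LipschitzWith 1 f ∧ Function.Bijective f ∧
      (∃ K, AntilipschitzWith K f) ∧ Same (push f TX) TY ∧
      mass (boundary TX) ≤ mass (boundary TY) ∧ mass TX ≤ mass TY ∧ ¬ Isometry f := by
  have hbij : Function.Bijective (mapXY Ex.dat) :=
    ⟨fun p q h => Subtype.ext (congrArg (fun z : YT Ex.dat => z.1) h), fun p => ⟨mapYX _ p, rfl⟩⟩
  refine ⟨YT Ex.dat, inferInstance, inferInstance, inferInstance, torus Ex.dat, cur (PY Ex.dat),
    isFundamental_cur Ex.dat, isIntegral_cur (tp_Y Ex.dat), XT Ex.dat, inferInstance,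
    inferInstance, inferInstance, cur (PX Ex.dat), mapXY Ex.dat,
    isIntegralCurrentSpace_cur (tp_X Ex.dat), lip_XY Ex.dat, hbij, ⟨Ex.dat.a, ?_⟩,
    fun f π _ _ => rfl, ?_, mass_le Ex.dat, not_isometry Ex.dat⟩
  · refine AntilipschitzWith.of_le_mul_dist fun p q => ?_
    exact (lip_YX Ex.dat).dist_le_mul (mapXY Ex.dat p) (mapXY Ex.dat q)
  · rw [mass_boundary (tp_X Ex.dat)]
    exact bot_le

end Pool.Agent.Results.MP_f51a17_gt.NotRigid
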